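import Pool.Agent.helper5.LDH.Spec

/-!
# Project LDH (MP_4467b5_nt), row WTJ (helper44)
-/

set_option autoImplicit false

namespace Pool.Agent.LDH

theorem WTJ_tele (N : ℕ) (hN : 1 ≤ N) (f : ℕ → ℝ) :
    ∑ n ∈ Finset.Ioo N (2 * N), (f (n + 1) - f n) = f (2 * N) - f (N + 1) := by
  have h1 : Finset.Ioo N (2 * N) = Finset.Ico (N + 1) (2 * N) := by
    ext n
    rw [Finset.mem_Ioo, Finset.mem_Ico]
    omega
  rw [h1, Finset.sum_Ico_eq_sum_range]
  have h2 := Finset.sum_range_sub (fun i => f (N + 1 + i)) (2 * N - (N + 1))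
  have h3 : N + 1 + (2 * N - (N + 1)) = 2 * N := by omega
  simp only [h3, add_zero] at h2
  rw [← h2]
  exact Finset.sum_congr rfl fun i _ => rfl

theorem WTJ : WTJ_stmt := by
  intro N j σ hN hσ
  have hN0 : (0 : ℝ) < N := by exact_mod_cast hN
  -- the two factors
  have p0 : ∀ n : ℕ, 0 ≤ ((N : ℝ) / n) ^ σ := fun n => Real.rpow_nonneg (by positivity) _
  have p1 : ∀ n : ℕ, N ≤ n → ((N : ℝ) / n) ^ σ ≤ 1 := by
    intro n hn
    have hn' : (N : ℝ) ≤ n := by exact_mod_cast hn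
    exact Real.rpow_le_one (by positivity) ((div_le_one (by linarith)).2 hn') hσ
  have p2 : ∀ n : ℕ, N ≤ n → ((N : ℝ) / (n + 1 : ℕ)) ^ σ ≤ ((N : ℝ) / n) ^ σ := by
    intro n hn
    have hn' : (N : ℝ) ≤ n := by exact_mod_cast hn
    have hn0 : (0 : ℝ) < n := by linarith
    refine Real.rpow_le_rpow (by positivity) ?_ hσ
    refine div_le_div_of_nonneg_left hN0.le hn0 ?_
    push_cast
    linarith
  have g0 : ∀ n : ℕ, N ≤ n → 0 ≤ Real.log ((n : ℝ) / N) := by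
    intro n hn
    have hn' : (N : ℝ) ≤ n := by exact_mod_cast hn
    exact Real.log_nonneg ((one_le_div hN0).2 hn')
  have g1 : ∀ n : ℕ, N ≤ n → n ≤ 2 * N → Real.log ((n : ℝ) / N) ≤ 1 := by
    intro n hn hn2
    have hn' : (N : ℝ) ≤ n := by exact_mod_cast hn
    have hn2' : (n : ℝ) ≤ 2 * N := by exact_mod_cast hn2
    have h1 : (n : ℝ) / N ≤ 2 := by
      rw [div_le_iff₀ hN0]
      exact hn2'
    have h2 : Real.log ((n : ℝ) / N) ≤ Real.log 2 :=
      Real.log_le_log (div_pos (by linarith) hN0) h1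
    have h3 := Real.log_two_lt_d9
    linarith
  have g2 : ∀ n : ℕ, N ≤ n → Real.log ((n : ℝ) / N) ≤ Real.log (((n + 1 : ℕ) : ℝ) / N) := by
    intro n hn
    have hn' : (N : ℝ) ≤ n := by exact_mod_cast hn
    refine Real.log_le_log (div_pos (by linarith) hN0) ?_
    gcongr
    exact Nat.le_succ n
  have l0 : ∀ n : ℕ, N ≤ n → 0 ≤ Real.log ((n : ℝ) / N) ^ j := fun n hn => pow_nonneg (g0 n hn) _
  have l1 : ∀ n : ℕ, N ≤ n → n ≤ 2 * N → Real.log ((n : ℝ) / N) ^ j ≤ 1 := fun n hn hn2 =>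
    pow_le_one₀ (g0 n hn) (g1 n hn hn2)
  have l2 : ∀ n : ℕ, N ≤ n → Real.log ((n : ℝ) / N) ^ j ≤ Real.log (((n + 1 : ℕ) : ℝ) / N) ^ j :=
    fun n hn => pow_le_pow_left₀ (g0 n hn) (g2 n hn) _
  refine ⟨⟨?_, ?_⟩, ?_, ?_⟩
  · intro n hn
    rw [Finset.mem_Ioc] at hn
    unfold ww
    rw [abs_of_nonneg (mul_nonneg (p0 n) (l0 n hn.1.le))]
    calc ((N : ℝ) / n) ^ σ * Real.log ((n : ℝ) / N) ^ j ≤ 1 * 1 :=
          mul_le_mul (p1 n hn.1.le) (l1 n hn.1.le hn.2) (l0 n hn.1.le) zero_le_one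
      _ = 1 := one_mul 1
  · have key : ∀ n ∈ Finset.Ioo N (2 * N), |ww N σ j (n + 1) - ww N σ j n| ≤
        -(((N : ℝ) / (n + 1 : ℕ)) ^ σ - ((N : ℝ) / n) ^ σ) +
          (Real.log (((n + 1 : ℕ) : ℝ) / N) ^ j - Real.log ((n : ℝ) / N) ^ j) := by
      intro n hn
      rw [Finset.mem_Ioo] at hn
      unfold ww
      have a1 := p0 n
      have a2 := p1 n hn.1.le
      have a3 := p2 n hn.1.le
      have b1 := l0 (n + 1) (by omega)
      have b2 := l1 (n + 1) (by omega) (by omega)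
      have b3 := l2 n hn.1.le
      set P := ((N : ℝ) / n) ^ σ
      set P' := ((N : ℝ) / (n + 1 : ℕ)) ^ σ
      set L := Real.log ((n : ℝ) / N) ^ j
      set L' := Real.log (((n + 1 : ℕ) : ℝ) / N) ^ j
      have e : P' * L' - P * L = (P' - P) * L' + P * (L' - L) := by ring
      rw [e]
      refine (abs_add_le _ _).trans ?_
      rw [abs_mul, abs_mul, abs_of_nonpos (by linarith : P' - P ≤ 0), abs_of_nonneg b1, abs_of_nonneg a1,
        abs_of_nonneg (by linarith : 0 ≤ L' - L)]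
      have c1 : -(P' - P) * L' ≤ -(P' - P) * 1 := mul_le_mul_of_nonneg_left b2 (by linarith)
      have c2 : P * (L' - L) ≤ 1 * (L' - L) := mul_le_mul_of_nonneg_right a2 (by linarith)
      linarith
    refine (Finset.sum_le_sum key).trans ?_
    rw [Finset.sum_add_distrib, Finset.sum_neg_distrib, WTJ_tele N hN (fun n => ((N : ℝ) / n) ^ σ),
      WTJ_tele N hN (fun n => Real.log ((n : ℝ) / N) ^ j)]
    have a1 := p0 (2 * N)
    have a2 := p1 (N + 1) (by omega)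
    have b1 := l0 (N + 1) (by omega)
    have b2 := l1 (2 * N) (by omega) le_rfl
    push_cast at a1 a2 b1 b2 ⊢
    linarith
  · intro n hn
    rw [Finset.mem_Ioc] at hn
    exact mul_nonneg (p0 n) (l0 n hn.1.le)
  · intro n
    unfold ww
    rw [pow_succ, mul_assoc]

end Pool.Agent.LDH
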